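import Mathlib
import Pool.Agent.Y300.LC.Stm

/-! Project LC (helper300): `S_SOL` -/

set_option autoImplicit false

namespace Pool.Agent.Y458.LC

open PowerSeries Finset
open Pool.Agent.Y300.LC

variable {R : Type} [CommRing R]

lemma X_dvd_of_cc {F : PowerSeries R} (h : constantCoeff F = 0) : (X : PowerSeries R) ∣ F :=
  X_dvd_iff.2 h

lemma pow_sub_dvd {F G : PowerSeries R} (hF : constantCoeff F = 0) (hG : constantCoeff G = 0)
    {m k : ℕ} (hk : 2 ≤ k) (h : (X : PowerSeries R) ^ m ∣ F - G) :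
    (X : PowerSeries R) ^ (m + 1) ∣ F ^ k - G ^ k := by
  have e := (Commute.all F G).geom_sum₂_mul k
  rw [← e, pow_succ']
  refine mul_dvd_mul ?_ h
  apply Finset.dvd_sum
  intro i hi
  rw [Finset.mem_range] at hi
  by_cases h0 : i = 0
  · subst h0
    have : k - 1 - 0 ≠ 0 := by omega
    exact (dvd_pow (X_dvd_of_cc hG) this).mul_left _
  · exact (dvd_pow (X_dvd_of_cc hF) h0).mul_right _

lemma sq_dvd_pow {F : PowerSeries R} (hF : constantCoeff F = 0) {k : ℕ} (hk : 2 ≤ k) :
    (X : PowerSeries R) ^ 2 ∣ F ^ k :=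
  (pow_dvd_pow_of_dvd (X_dvd_of_cc hF) 2).trans (pow_dvd_pow F hk)

variable [Algebra ℚ R]

/-- the right-hand side of the recursion -/
noncomputable def Phi (N : ℕ) (p q : R) (G : PowerSeries R) : PowerSeries R :=
  PowerSeries.mk (fun n => if n = 0 then 0 else if n = 1 then 1 else
    algebraMap ℚ R (1 / ((n : ℚ) - 1)) * coeff n (C p * G ^ N + C q * G ^ (N + 1)))

lemma cc_Phi (N : ℕ) (p q : R) (G : PowerSeries R) : constantCoeff (Phi N p q G) = 0 := by
  rw [← coeff_zero_eq_constantCoeff_apply, Phi, coeff_mk]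
  simp

lemma Phi_contr {N : ℕ} (hN : 2 ≤ N) (p q : R) {F G : PowerSeries R} (hF : constantCoeff F = 0)
    (hG : constantCoeff G = 0) {m : ℕ} (h : (X : PowerSeries R) ^ m ∣ F - G) :
    (X : PowerSeries R) ^ (m + 1) ∣ Phi N p q F - Phi N p q G := by
  rw [X_pow_dvd_iff]
  intro n hn
  have h1 : (X : PowerSeries R) ^ (m + 1) ∣
      (C p * F ^ N + C q * F ^ (N + 1)) - (C p * G ^ N + C q * G ^ (N + 1)) := by
    have e : (C p * F ^ N + C q * F ^ (N + 1)) - (C p * G ^ N + C q * G ^ (N + 1)) =
        C p * (F ^ N - G ^ N) + C q * (F ^ (N + 1) - G ^ (N + 1)) := by ring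
    rw [e]
    exact dvd_add ((pow_sub_dvd hF hG hN h).mul_left _)
      ((pow_sub_dvd hF hG (by omega) h).mul_left _)
  have h2 := (X_pow_dvd_iff.1 h1) n hn
  rw [map_sub, sub_eq_zero] at h2
  rw [map_sub, Phi, Phi, coeff_mk, coeff_mk, h2, sub_self]

lemma alg_inv (n : ℕ) (hn : n ≠ 1) : ((n : R) - 1) * algebraMap ℚ R (1 / ((n : ℚ) - 1)) = 1 := by
  have h1 : ((n : ℚ) - 1) ≠ 0 := by
    rw [sub_ne_zero]
    exact_mod_cast hn
  have h2 : ((n : R) - 1) = algebraMap ℚ R ((n : ℚ) - 1) := by simp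
  rw [h2, ← map_mul, mul_one_div_cancel h1, map_one]

omit [Algebra ℚ R] in
lemma coeff_X_derivative (F : PowerSeries R) (n : ℕ) :
    coeff n (X * derivative R F) = (n : R) * coeff n F := by
  cases n with
  | zero => simp
  | succ n =>
      rw [coeff_succ_X_mul, coeff_derivative]
      push_cast
      ring

lemma isSol_iff {N : ℕ} (hN : 2 ≤ N) (p q : R) (F : PowerSeries R) :
    IsSol N p q F ↔ Phi N p q F = F := by
  constructor
  · rintro ⟨h0, h1, h2⟩
    ext n
    rw [Phi, coeff_mk]
    split_ifs with hn0 hn1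
    · rw [hn0, coeff_zero_eq_constantCoeff_apply, h0]
    · rw [hn1, h1]
    · have h3 := congrArg (coeff n) h2
      rw [coeff_X_derivative, add_assoc, map_add] at h3
      have h4 : coeff n (C p * F ^ N + C q * F ^ (N + 1)) = ((n : R) - 1) * coeff n F := by
        linear_combination -h3
      rw [h4, ← mul_assoc, mul_comm (algebraMap ℚ R _), alg_inv n hn1, one_mul]
  · intro h
    have h0 : constantCoeff F = 0 := by
      rw [← h]; exact cc_Phi N p q F
    have h1 : coeff 1 F = 1 := by
      rw [← h, Phi, coeff_mk]; simp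
    refine ⟨h0, h1, ?_⟩
    ext n
    rw [coeff_X_derivative, add_assoc, map_add]
    by_cases hn : n < 2
    · have h5 : (X : PowerSeries R) ^ 2 ∣ C p * F ^ N + C q * F ^ (N + 1) :=
        dvd_add ((sq_dvd_pow h0 hN).mul_left _) ((sq_dvd_pow h0 (by omega)).mul_left _)
      rw [(X_pow_dvd_iff.1 h5) n hn, add_zero]
      interval_cases n
      · rw [coeff_zero_eq_constantCoeff_apply, h0]; simp
      · simp
    · have h6 : coeff n F =
          algebraMap ℚ R (1 / ((n : ℚ) - 1)) * coeff n (C p * F ^ N + C q * F ^ (N + 1)) := by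
        conv_lhs => rw [← h, Phi, coeff_mk]
        rw [if_neg (by omega), if_neg (by omega)]
      have h7 : ((n : R) - 1) * coeff n F = coeff n (C p * F ^ N + C q * F ^ (N + 1)) := by
        rw [h6, ← mul_assoc, alg_inv n (by omega), one_mul]
      rw [← h7]; ring

theorem sol_all : S_SOL := by
  intro R _ _ N p q hN
  -- the approximations
  obtain ⟨T, hT0, hT1⟩ : ∃ T : ℕ → PowerSeries R, T 0 = 0 ∧ ∀ n, T (n + 1) = Phi N p q (T n) :=
    ⟨fun n => (Phi N p q)^[n] 0, rfl, fun n => Function.iterate_succ_apply' _ _ _⟩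
  have cT : ∀ n, constantCoeff (T n) = 0 := by
    intro n
    cases n with
    | zero => rw [hT0, map_zero]
    | succ n => rw [hT1]; exact cc_Phi N p q _
  have hstep : ∀ n, (X : PowerSeries R) ^ n ∣ T (n + 1) - T n := by
    intro n
    induction n with
    | zero => simp
    | succ n ih =>
        have e : T (n + 1 + 1) - T (n + 1) = Phi N p q (T (n + 1)) - Phi N p q (T n) := by
          rw [← hT1 n, ← hT1 (n + 1)]
        rw [e]
        exact Phi_contr hN p q (cT (n + 1)) (cT n) ih
  have hstab : ∀ n k, (X : PowerSeries R) ^ n ∣ T (n + k) - T n := by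
    intro n k
    induction k with
    | zero => simp
    | succ k ih =>
        have e : T (n + (k + 1)) - T n = (T (n + k + 1) - T (n + k)) + (T (n + k) - T n) := by
          rw [← add_assoc]; ring
        rw [e]
        exact dvd_add ((pow_dvd_pow _ (by omega)).trans (hstep (n + k))) ih
  obtain ⟨F, hF⟩ : ∃ F : PowerSeries R, ∀ n, coeff n F = coeff n (T (n + 1)) :=
    ⟨PowerSeries.mk (fun n => coeff n (T (n + 1))), fun n => coeff_mk n _⟩
  have hFT : ∀ n, (X : PowerSeries R) ^ n ∣ F - T n := by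
    intro n
    rw [X_pow_dvd_iff]
    intro m hm
    rw [map_sub, hF]
    have h1 := hstab (m + 1) (n - (m + 1))
    have e : m + 1 + (n - (m + 1)) = n := by omega
    rw [e] at h1
    have h2 := (X_pow_dvd_iff.1 h1) m (by omega)
    rw [map_sub, sub_eq_zero] at h2
    rw [h2, sub_self]
  have cF : constantCoeff F = 0 := by
    rw [← coeff_zero_eq_constantCoeff_apply, hF, coeff_zero_eq_constantCoeff_apply]
    exact cT _
  have hfix : Phi N p q F = F := by
    rw [← sub_eq_zero]
    ext n
    have h1 : (X : PowerSeries R) ^ (n + 1) ∣ Phi N p q F - T (n + 1) := by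
      rw [hT1]
      exact Phi_contr hN p q cF (cT _) (hFT n)
    have h2 := dvd_sub h1 (hFT (n + 1))
    have e : Phi N p q F - T (n + 1) - (F - T (n + 1)) = Phi N p q F - F := by ring
    rw [e] at h2
    rw [(X_pow_dvd_iff.1 h2) n (by omega)]
    simp
  refine ⟨F, (isSol_iff hN p q F).2 hfix, ?_⟩
  intro G hG
  have hG1 := (isSol_iff hN p q G).1 hG
  have hall : ∀ n, (X : PowerSeries R) ^ n ∣ G - F := by
    intro n
    induction n with
    | zero => simp
    | succ n ih =>
        have h3 := Phi_contr hN p q hG.1 cF ih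
        rwa [hG1, hfix] at h3
  rw [← sub_eq_zero]
  ext n
  rw [(X_pow_dvd_iff.1 (hall (n + 1))) n (by omega)]
  simp

end Pool.Agent.Y458.LC
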