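import Mathlib
import Pool.Agent.Y300.LC.Stm

/-! Project LC (helper300): `S_PARS` and `S_MEL` -/

set_option autoImplicit false

namespace Pool.Agent.Y458.LC

open PowerSeries Finset Filter Topology MeasureTheory
open scoped ComplexConjugate
open Pool.Agent.Y300.LC

/-- orthogonality on the circle -/
lemma circ_int (ρ : ℝ) (m n : ℕ) :
    ∫ θ in (0 : ℝ)..(2 * Real.pi), ((ρ : ℂ) * Complex.exp (θ * Complex.I)) ^ m *
      conj (((ρ : ℂ) * Complex.exp (θ * Complex.I)) ^ n) =
      if m = n then 2 * Real.pi * ((ρ : ℂ) ^ 2) ^ m else 0 := by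
  have e : ∀ θ : ℝ, ((ρ : ℂ) * Complex.exp (θ * Complex.I)) ^ m *
      conj (((ρ : ℂ) * Complex.exp (θ * Complex.I)) ^ n) =
      (ρ : ℂ) ^ (m + n) * Complex.exp ((((m : ℂ) - n) * Complex.I) * θ) := by
    intro θ
    rw [map_pow, map_mul, Complex.conj_ofReal, ← Complex.exp_conj, map_mul, Complex.conj_ofReal,
      Complex.conj_I, mul_pow, mul_pow, ← Complex.exp_nat_mul, ← Complex.exp_nat_mul]
    have e1 : Complex.exp ((((m : ℂ) - n) * Complex.I) * θ) =
        Complex.exp (m * (θ * Complex.I)) * Complex.exp (n * (θ * -Complex.I)) := by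
      rw [← Complex.exp_add]; congr 1; ring
    rw [e1, pow_add]; ring
  simp_rw [e]
  rw [intervalIntegral.integral_const_mul]
  split_ifs with h
  · subst h
    simp only [sub_self, zero_mul, Complex.exp_zero, intervalIntegral.integral_const, sub_zero,
      Complex.real_smul, Complex.ofReal_mul, Complex.ofReal_ofNat, mul_one]
    rw [← pow_mul]
    ring
  · have hc : ((m : ℂ) - n) * Complex.I ≠ 0 := by
      apply mul_ne_zero _ Complex.I_ne_zero
      rw [sub_ne_zero]
      exact_mod_cast h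
    rw [integral_exp_mul_complex hc]
    have e2 : Complex.exp (((m : ℂ) - n) * Complex.I * ((2 * Real.pi : ℝ) : ℂ)) = 1 := by
      have := Complex.exp_int_mul_two_pi_mul_I ((m : ℤ) - n)
      rw [← this]
      congr 1
      push_cast
      ring
    rw [e2]
    simp

theorem pars_all : S_PARS := by
  intro δ a b f g hf hg ρ hρ hρδ
  have hmem : ∀ θ : ℝ, (ρ : ℂ) * Complex.exp (θ * Complex.I) ∈ Metric.ball (0 : ℂ) δ := by
    intro θ
    rw [mem_ball_zero_iff, norm_mul, Complex.norm_exp_ofReal_mul_I, mul_one, Complex.norm_real,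
      Real.norm_of_nonneg hρ.le]
    exact hρδ
  have hnorm : ∀ θ : ℝ, ‖(ρ : ℂ) * Complex.exp (θ * Complex.I)‖ = ρ := by
    intro θ
    rw [norm_mul, Complex.norm_exp_ofReal_mul_I, mul_one, Complex.norm_real,
      Real.norm_of_nonneg hρ.le]
  have hρm : (ρ : ℂ) ∈ Metric.ball (0 : ℂ) δ := by
    rw [mem_ball_zero_iff, Complex.norm_real, Real.norm_of_nonneg hρ.le]
    exact hρδ
  have sa : Summable (fun m => ‖a m‖ * ρ ^ m) := by
    have := (hf _ hρm).summable.norm
    simpa [norm_mul, norm_pow, abs_of_pos hρ] using this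
  have sb : Summable (fun m => ‖b m‖ * ρ ^ m) := by
    have := (hg _ hρm).summable.norm
    simpa [norm_mul, norm_pow, abs_of_pos hρ] using this
  have sab : Summable (fun x : ℕ × ℕ => (‖a x.1‖ * ρ ^ x.1) * (‖b x.2‖ * ρ ^ x.2)) :=
    sa.mul_of_nonneg sb (fun m => by positivity) (fun m => by positivity)
  have key := intervalIntegral.hasSum_integral_of_dominated_convergence (ι := ℕ × ℕ)
    (μ := volume) (a := 0) (b := 2 * Real.pi)
    (F := fun x θ => (a x.1 * conj (b x.2)) * (((ρ : ℂ) * Complex.exp (θ * Complex.I)) ^ x.1 *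
      conj (((ρ : ℂ) * Complex.exp (θ * Complex.I)) ^ x.2)))
    (f := fun θ => f (ρ * Complex.exp (θ * Complex.I)) *
        conj (g (ρ * Complex.exp (θ * Complex.I))))
    (fun x _ => (‖a x.1‖ * ρ ^ x.1) * (‖b x.2‖ * ρ ^ x.2)) ?_ ?_ ?_ ?_ ?_
  · have h2 : ∀ x : ℕ × ℕ, ∫ θ in (0 : ℝ)..(2 * Real.pi), (a x.1 * conj (b x.2)) *
        (((ρ : ℂ) * Complex.exp (θ * Complex.I)) ^ x.1 *
        conj (((ρ : ℂ) * Complex.exp (θ * Complex.I)) ^ x.2)) =
        (a x.1 * conj (b x.2)) * (if x.1 = x.2 then 2 * Real.pi * ((ρ : ℂ) ^ 2) ^ x.1 else 0) := by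
      intro x
      rw [intervalIntegral.integral_const_mul, circ_int]
    simp_rw [h2] at key
    have hinj : Function.Injective (fun m : ℕ => ((m, m) : ℕ × ℕ)) := by
      intro m n h
      exact (Prod.ext_iff.1 h).1
    rw [← hinj.hasSum_iff] at key
    · have e : (fun m : ℕ => 2 * (Real.pi : ℂ) * (a m * conj (b m) * ((ρ : ℂ) ^ 2) ^ m)) =
          ((fun x : ℕ × ℕ => (a x.1 * conj (b x.2)) *
            (if x.1 = x.2 then 2 * Real.pi * ((ρ : ℂ) ^ 2) ^ x.1 else 0)) ∘
            fun m : ℕ => ((m, m) : ℕ × ℕ)) := by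
        funext m
        simp only [Function.comp, if_true]
        ring
      rw [e]
      exact key
    · intro x hx
      rw [if_neg, mul_zero]
      intro h
      apply hx
      exact ⟨x.1, Prod.ext rfl h⟩
  · intro x
    apply Continuous.aestronglyMeasurable
    fun_prop
  · intro x
    refine Eventually.of_forall fun θ _ => ?_
    rw [norm_mul, norm_mul, norm_mul, RCLike.norm_conj, RCLike.norm_conj, norm_pow, norm_pow,
      hnorm θ]
    apply le_of_eq
    ring
  · exact Eventually.of_forall fun θ _ => sab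
  · exact intervalIntegrable_const
  · refine Eventually.of_forall fun θ _ => ?_
    have h1 := hf _ (hmem θ)
    have h2 := (hg _ (hmem θ)).map (starRingEnd ℂ) Complex.continuous_conj
    have h3 : Summable (fun x : ℕ × ℕ => (a x.1 * (ρ * Complex.exp (θ * Complex.I)) ^ x.1) *
        ((starRingEnd ℂ) ∘ fun m => b m * (ρ * Complex.exp (θ * Complex.I)) ^ m) x.2) := by
      apply Summable.of_norm_bounded sab
      intro x
      simp only [Function.comp]
      rw [norm_mul, norm_mul, RCLike.norm_conj, norm_mul, norm_pow, norm_pow, hnorm θ]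
    have h4 := h1.mul h2 h3
    have e : (fun x : ℕ × ℕ => (a x.1 * conj (b x.2)) *
        (((ρ : ℂ) * Complex.exp (θ * Complex.I)) ^ x.1 *
        conj (((ρ : ℂ) * Complex.exp (θ * Complex.I)) ^ x.2))) =
        (fun x : ℕ × ℕ => (a x.1 * (ρ * Complex.exp (θ * Complex.I)) ^ x.1) *
        ((starRingEnd ℂ) ∘ fun m => b m * (ρ * Complex.exp (θ * Complex.I)) ^ m) x.2) := by
      funext x
      simp only [Function.comp, map_mul]
      ring
    rw [e]
    exact h4

theorem mel (hp : S_PARS) : S_MEL := by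
  intro N p q δ φ _ hL j k ρ hρ hρδ
  obtain ⟨b, hb0, hb1⟩ : ∃ b : ℕ → ℂ, b 0 = 0 ∧ ∀ m, b (m + 1) = B N p q k m :=
    ⟨fun m => if m = 0 then 0 else B N p q k (m - 1), by simp, fun m => by simp⟩
  have hser : ∀ w ∈ Metric.ball (0 : ℂ) δ, HasSum (fun m => b m * w ^ m) (w * φ w ^ k) := by
    intro w hw
    rw [← hasSum_nat_add_iff' 1]
    have h1 := (hL.serB k w hw).mul_left w
    rw [Finset.sum_range_one, hb0, zero_mul, sub_zero]
    have e : (fun m => b (m + 1) * w ^ (m + 1)) = (fun m => w * (B N p q k m * w ^ m)) := by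
      funext m
      rw [hb1]; ring
    rw [e]
    exact h1
  have key := hp δ (fun m => coeff m (ser (sol N p q) j)) b _ _ (hL.serA j) hser ρ hρ hρδ
  rw [← hasSum_nat_add_iff' 1, Finset.sum_range_one, hb0, map_zero, mul_zero, zero_mul, mul_zero,
    sub_zero] at key
  have hc : 2 * (Real.pi : ℂ) * (ρ : ℂ) ^ 2 ≠ 0 := by
    have h1 : (Real.pi : ℂ) ≠ 0 := by exact_mod_cast Real.pi_ne_zero
    have h2 : (ρ : ℂ) ≠ 0 := by exact_mod_cast hρ.ne'
    exact mul_ne_zero (mul_ne_zero two_ne_zero h1) (pow_ne_zero 2 h2)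
  have e1 : (fun m => 2 * (Real.pi : ℂ) * (coeff (m + 1) (ser (sol N p q) j) * conj (b (m + 1)) *
      ((ρ : ℂ) ^ 2) ^ (m + 1))) =
      (fun m => (2 * (Real.pi : ℂ) * (ρ : ℂ) ^ 2) * (vv N p q j k m * ((ρ : ℂ) ^ 2) ^ m)) := by
    funext m
    rw [hb1]
    unfold vv A aa
    ring
  rw [e1] at key
  have e2 : (fun θ : ℝ => conj ((ρ : ℂ) * Complex.exp (θ * Complex.I)) *
        (φ (ρ * Complex.exp (θ * Complex.I)) ^ j * conj (φ (ρ * Complex.exp (θ * Complex.I))) ^ k /
          deriv φ (ρ * Complex.exp (θ * Complex.I)))) =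
      (fun θ : ℝ => φ (ρ * Complex.exp (θ * Complex.I)) ^ j /
        deriv φ (ρ * Complex.exp (θ * Complex.I)) *
        conj ((ρ : ℂ) * Complex.exp (θ * Complex.I) *
          φ (ρ * Complex.exp (θ * Complex.I)) ^ k)) := by
    funext θ
    rw [map_mul (starRingEnd ℂ) ((ρ : ℂ) * Complex.exp (θ * Complex.I)) _, map_pow]
    ring
  rw [e2]
  have h3 := key.mul_left (2 * (Real.pi : ℂ) * (ρ : ℂ) ^ 2)⁻¹
  have e3 : (fun m => (2 * (Real.pi : ℂ) * (ρ : ℂ) ^ 2)⁻¹ *
      ((2 * (Real.pi : ℂ) * (ρ : ℂ) ^ 2) * (vv N p q j k m * ((ρ : ℂ) ^ 2) ^ m))) =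
      (fun m => vv N p q j k m * ((ρ : ℂ) ^ 2) ^ m) := by
    funext m
    rw [← mul_assoc, inv_mul_cancel₀ hc, one_mul]
  rw [e3] at h3
  refine ⟨h3.summable, ?_⟩
  rw [h3.tsum_eq, ← mul_assoc, mul_inv_cancel₀ hc, one_mul]

theorem mel_all (_hs : S_SOL) (_hr : S_REL) (hp : S_PARS) : S_MEL := mel hp

end Pool.Agent.Y458.LC
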